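import Pool.Agent.H201.NC.Cher

/-!
# Bad words
-/

set_option autoImplicit false

namespace Pool.Agent.H201.NC

open Finset Filter Topology

variable {A : Type*} [DecidableEq A]

/-- number of the places `m + i`, `i < L`, at which a word of `S` starts -/
def occ (d : ℕ → A) {M : ℕ} (S : Finset (Fin M → A)) (m L : ℕ) : ℕ :=
  ((range L).filter fun i => win d M (m + i) ∈ S).card

theorem occ_le (d : ℕ → A) {M : ℕ} (S : Finset (Fin M → A)) (m L : ℕ) : occ d S m L ≤ L := by
  unfold occ
  exact (card_filter_le _ _).trans (card_range L).le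

theorem occ_add (d : ℕ → A) {M : ℕ} (S : Finset (Fin M → A)) (m L L' : ℕ) :
    occ d S m (L + L') = occ d S m L + occ d S (m + L) L' := by
  unfold occ
  simp only [card_filter]
  rw [sum_range_add]
  simp only [add_assoc]

theorem sum_blocks (f : ℕ → ℝ) (M n : ℕ) :
    ∑ k ∈ range (n * M), f k = ∑ r ∈ range M, ∑ j ∈ range n, f (r + j * M) := by
  induction n with
  | zero => simp
  | succ n ih =>
    rw [add_mul, one_mul, sum_range_add, ih, ← sum_add_distrib]
    refine sum_congr rfl fun r _ => ?_
    rw [sum_range_succ, add_comm r (n * M)]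

variable [Inhabited A] [Fintype A]

theorem badset {M : ℕ} (hM : 0 < M) (S : Finset (Fin M → A)) {δ : ℝ} (hδ : 0 < δ) (hδ1 : δ ≤ 1) :
    ∃ c : ℝ, 0 < c ∧ ∃ L0 : ℕ, ∀ L ≥ L0, ∃ B : Finset (Fin L → A),
      (B.card : ℝ) ≤ qq A ^ L * Real.exp (-c * L) ∧ ∀ (d : ℕ → A) (m : ℕ), win d L m ∉ B →
        |(occ d S m L : ℝ) - dens S * L| ≤ δ * L := by
  set δ' : ℝ := δ / 2 with hδ'
  have hδ'0 : 0 < δ' := by positivity
  have hδ'1 : δ' ≤ 1 := by rw [hδ']; linarith
  have hMr : (0 : ℝ) < M := by exact_mod_cast hM
  set c : ℝ := δ' ^ 2 / (8 * M) with hc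
  have hc0 : 0 < c := by positivity
  have hq := qq_pos (A := A)
  -- choice of L0
  have h1 : ∀ᶠ L : ℕ in atTop, 2 * M * Real.exp (δ' ^ 2 / 2) ≤ Real.exp (c * L) := by
    have : Tendsto (fun L : ℕ => Real.exp (c * L)) atTop atTop :=
      Real.tendsto_exp_atTop.comp (tendsto_natCast_atTop_atTop.const_mul_atTop hc0)
    exact this.eventually_ge_atTop _
  have h2 : ∀ᶠ L : ℕ in atTop, 4 * M / δ ≤ (L : ℝ) :=
    tendsto_natCast_atTop_atTop.eventually_ge_atTop _
  obtain ⟨L0, hL0⟩ := (h1.and (h2.and (eventually_ge_atTop M))).exists_forall_of_atTop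
  refine ⟨c, hc0, L0, fun L hL => ?_⟩
  obtain ⟨hL1, hL2, hLM⟩ := hL0 L hL
  set n : ℕ := L / M - 1 with hn
  have hdiv : 1 ≤ L / M := (Nat.one_le_div_iff hM).mpr hLM
  have hn1 : n + 1 = L / M := by omega
  have hn2 : (n + 1) * M ≤ L := by rw [hn1]; exact Nat.div_mul_le_self L M
  have hn3 : L < (n + 2) * M := by
    have := Nat.lt_div_mul_add hM (a := L)
    rw [← hn1] at this
    nlinarith
  have hn2' : (n + 1) * M = n * M + M := by ring
  have hn3' : (n + 2) * M = n * M + 2 * M := by ring
  have hr : ∀ r < M, r + n * M ≤ L := fun r hr => by omega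
  set U : ℕ → Finset (Fin L → A) := fun r => univ.filter fun u : Fin L → A => (dens S + δ') * n ≤
      ((range n).filter fun j => win (ext u) M (r + j * M) ∈ S).card with hU
  set V : ℕ → Finset (Fin L → A) := fun r => univ.filter fun u : Fin L → A =>
      (((range n).filter fun j => win (ext u) M (r + j * M) ∈ S).card : ℝ) ≤ (dens S - δ') * n with hV
  refine ⟨(range M).biUnion fun r => U r ∪ V r, ?_, ?_⟩
  · have h3 : (((range M).biUnion fun r => U r ∪ V r).card : ℝ) ≤
        M * (2 * (qq A ^ L * Real.exp (-(δ' ^ 2 / 4) * n))) := by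
      calc (((range M).biUnion fun r => U r ∪ V r).card : ℝ)
          ≤ ∑ r ∈ range M, ((U r ∪ V r).card : ℝ) := by exact_mod_cast card_biUnion_le
        _ ≤ ∑ r ∈ range M, 2 * (qq A ^ L * Real.exp (-(δ' ^ 2 / 4) * n)) := by
            refine sum_le_sum fun r hr' => ?_
            rw [mem_range] at hr'
            have h4 := upper S hδ'0 hδ'1 (hr r hr')
            have h5 := lower S hδ'0 hδ'1 (hr r hr')
            have h6 : ((U r ∪ V r).card : ℝ) ≤ (U r).card + (V r).card := by
              exact_mod_cast card_union_le _ _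
            rw [hU, hV] at h6
            simp only at h6
            linarith
        _ = _ := by rw [sum_const, card_range, nsmul_eq_mul]
    refine h3.trans ?_
    have h4 : Real.exp (-(δ' ^ 2 / 4) * n) ≤ Real.exp (δ' ^ 2 / 2) * Real.exp (-(2 * c) * L) := by
      rw [← Real.exp_add]
      refine Real.exp_le_exp.mpr ?_
      have h5 : (L : ℝ) ≤ (n + 2) * M := by
        have : (L : ℝ) < (n + 2) * M := by exact_mod_cast hn3
        exact this.le
      have h6 : 2 * c * L ≤ 2 * c * ((n + 2) * M) := by gcongr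
      have h7 : 2 * c * ((n + 2) * M) = δ' ^ 2 / 4 * n + δ' ^ 2 / 2 := by
        rw [hc]
        field_simp
        ring
      linarith
    have h5 : Real.exp (-(2 * c) * L) = Real.exp (-c * L) * Real.exp (-(c * L)) := by
      rw [← Real.exp_add]
      congr 1
      ring
    have h6 : Real.exp (c * L) * Real.exp (-(c * L)) = 1 := by
      rw [← Real.exp_add]
      simp
    have h7 : 0 < Real.exp (-(c * L)) := Real.exp_pos _
    have h8 : 0 < Real.exp (-c * L) := Real.exp_pos _
    calc M * (2 * (qq A ^ L * Real.exp (-(δ' ^ 2 / 4) * n)))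
        ≤ M * (2 * (qq A ^ L * (Real.exp (δ' ^ 2 / 2) * Real.exp (-(2 * c) * L)))) := by gcongr
      _ = qq A ^ L * Real.exp (-c * L) * ((2 * M * Real.exp (δ' ^ 2 / 2)) * Real.exp (-(c * L))) := by
          rw [h5]; ring
      _ ≤ qq A ^ L * Real.exp (-c * L) * (Real.exp (c * L) * Real.exp (-(c * L))) := by gcongr
      _ = _ := by rw [h6, mul_one]
  · intro d m hd
    have h3 : ∀ r < M, |(((range n).filter fun j => win (ext (win d L m)) M (r + j * M) ∈ S).card : ℝ) -
        dens S * n| ≤ δ' * n := by
      intro r hr'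
      have h4 : win d L m ∉ U r ∧ win d L m ∉ V r := by
        constructor
        · intro h
          exact hd (mem_biUnion.mpr ⟨r, mem_range.mpr hr', mem_union_left _ h⟩)
        · intro h
          exact hd (mem_biUnion.mpr ⟨r, mem_range.mpr hr', mem_union_right _ h⟩)
      rw [hU, hV] at h4
      simp only [mem_filter, mem_univ, true_and, not_le] at h4
      rw [abs_le]
      constructor <;> nlinarith [h4.1, h4.2]
    have h4 : (occ d S m (n * M) : ℝ) = ∑ r ∈ range M,
        (((range n).filter fun j => win (ext (win d L m)) M (r + j * M) ∈ S).card : ℝ) := by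
      unfold occ
      rw [card_filter]
      push_cast
      rw [sum_blocks]
      refine sum_congr rfl fun r hr' => ?_
      rw [mem_range] at hr'
      rw [card_filter]
      push_cast
      refine sum_congr rfl fun j hj => ?_
      rw [mem_range] at hj
      rw [win_ext_win d (L := L)]
      have : (j + 1) * M ≤ n * M := Nat.mul_le_mul_right M hj
      have : (j + 1) * M = j * M + M := by ring
      omega
    have h5 : |(occ d S m (n * M) : ℝ) - dens S * (n * M)| ≤ δ' * (n * M) := by
      rw [h4]
      have h6 : dens S * (n * M) = ∑ r ∈ range M, dens S * n := by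
        rw [sum_const, card_range, nsmul_eq_mul]
        ring
      rw [h6, ← sum_sub_distrib]
      refine (abs_sum_le_sum_abs _ _).trans ?_
      calc ∑ r ∈ range M, |(((range n).filter fun j =>
              win (ext (win d L m)) M (r + j * M) ∈ S).card : ℝ) - dens S * n|
          ≤ ∑ r ∈ range M, δ' * n := sum_le_sum fun r hr' => h3 r (mem_range.mp hr')
        _ = δ' * (n * M) := by
            rw [sum_const, card_range, nsmul_eq_mul]
            ring
    obtain ⟨R, hR⟩ : ∃ R, L = n * M + R := ⟨L - n * M, by omega⟩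
    have hR2 : R ≤ 2 * M := by omega
    have h6 := occ_add d S m (n * M) R
    have h7 := occ_le d S (m + n * M) R
    have h8 : (occ d S m L : ℝ) = occ d S m (n * M) + occ d S (m + n * M) R := by
      rw [hR]
      exact_mod_cast h6
    have h9 : (L : ℝ) = n * M + R := by exact_mod_cast hR
    have h10 : (R : ℝ) ≤ 2 * M := by exact_mod_cast hR2
    have h11 : (occ d S (m + n * M) R : ℝ) ≤ R := by exact_mod_cast h7
    have h12 : (0 : ℝ) ≤ occ d S (m + n * M) R := Nat.cast_nonneg _
    have h13 : 2 * M ≤ δ' * L := by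
      rw [div_le_iff₀ hδ] at hL2
      rw [hδ']
      linarith
    have hp0 := dens_nonneg S
    have hp1 := dens_le_one S
    have hR0 : (0 : ℝ) ≤ R := Nat.cast_nonneg R
    have hnM : (0 : ℝ) ≤ n * M := by positivity
    rw [abs_le] at h5 ⊢
    rw [h8]
    have h14 : dens S * L = dens S * (n * M) + dens S * R := by rw [h9]; ring
    have h15 : δ' * (n * M) ≤ δ' * L := by
      rw [h9]
      nlinarith
    have h16 : 0 ≤ dens S * R := by positivity
    have h17 : dens S * R ≤ R := by nlinarith
    have h18 : δ * L = δ' * L + δ' * L := by rw [hδ']; ring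
    constructor <;> linarith [h5.1, h5.2]

end Pool.Agent.H201.NC
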