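import Pool.Agent.H201.NC.Words

/-!
# Exponential bounds
-/

set_option autoImplicit false

namespace Pool.Agent.H201.NC

open Finset Filter Topology

variable {A : Type*} [Inhabited A] [Fintype A] [DecidableEq A]

/-- the number of letters -/
noncomputable def qq (A : Type*) [Fintype A] : ℝ := Fintype.card A

theorem qq_pos : 0 < qq A := by
  unfold qq
  exact_mod_cast Fintype.card_pos

theorem one_le_qq : 1 ≤ qq A := by
  unfold qq
  exact_mod_cast Fintype.card_pos (α := A)

/-- the density of a set of words -/
noncomputable def dens {M : ℕ} (S : Finset (Fin M → A)) : ℝ := S.card / qq A ^ M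

theorem dens_nonneg {M : ℕ} (S : Finset (Fin M → A)) : 0 ≤ dens S := by
  unfold dens
  have := qq_pos (A := A)
  positivity

theorem card_words (M : ℕ) : ((Finset.univ : Finset (Fin M → A)).card : ℝ) = qq A ^ M := by
  rw [card_univ, Fintype.card_pi]
  simp [qq]

theorem dens_le_one {M : ℕ} (S : Finset (Fin M → A)) : dens S ≤ 1 := by
  unfold dens
  have := qq_pos (A := A)
  rw [div_le_one (by positivity), ← card_words (A := A) M]
  exact_mod_cast card_le_univ S

theorem dens_compl {M : ℕ} (S : Finset (Fin M → A)) : dens Sᶜ = 1 - dens S := by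
  unfold dens
  have := qq_pos (A := A)
  rw [card_compl, Nat.cast_sub (card_le_univ S), eq_sub_iff_add_eq, ← add_div, sub_add_cancel,
    div_eq_one_iff_eq (by positivity), ← card_words (A := A) M, card_univ]

theorem upper {M : ℕ} (S : Finset (Fin M → A)) {δ : ℝ} (hδ : 0 < δ) (hδ1 : δ ≤ 1) {n r L : ℕ}
    (h : r + n * M ≤ L) :
    ((univ.filter fun u : Fin L → A => (dens S + δ) * n ≤
      ((range n).filter fun j => win (ext u) M (r + j * M) ∈ S).card).card : ℝ) ≤
      qq A ^ L * Real.exp (-(δ ^ 2 / 4) * n) := by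
  set T := univ.filter fun u : Fin L → A => (dens S + δ) * n ≤
      ((range n).filter fun j => win (ext u) M (r + j * M) ∈ S).card with hT
  set lam : ℝ := δ / 2 with hlam
  set p := dens S with hp
  have hp0 : 0 ≤ p := dens_nonneg S
  have hp1 : p ≤ 1 := dens_le_one S
  have hq := qq_pos (A := A)
  set g : (Fin M → A) → ℝ := fun v => if v ∈ S then Real.exp lam else 1 with hg
  have hg0 : ∀ v, 0 ≤ g v := by
    intro v
    rw [hg]
    simp only
    split_ifs
    · exact (Real.exp_pos _).le
    · norm_num
  have h1 := blockprod' g h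
  have h2 : ∀ u : Fin L → A, ∏ j ∈ range n, g (win (ext u) M (r + j * M)) =
      Real.exp (lam * ((range n).filter fun j => win (ext u) M (r + j * M) ∈ S).card) := by
    intro u
    rw [hg]
    simp only
    rw [prod_ite, prod_const_one, mul_one, prod_const, ← Real.exp_nat_mul, mul_comm]
  have h3 : ∑ v, g v = qq A ^ M * (1 + p * (Real.exp lam - 1)) := by
    rw [hg]
    simp only
    rw [sum_ite, sum_const, sum_const, nsmul_eq_mul, nsmul_eq_mul, mul_one]
    have h4 : (univ.filter fun v : Fin M → A => v ∈ S) = S := by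
      ext v
      simp
    have h5 : (univ.filter fun v : Fin M → A => v ∉ S) = Sᶜ := by
      ext v
      simp
    rw [h4, h5, card_compl, Nat.cast_sub (card_le_univ S), ← card_univ, card_words]
    have h6 : (S.card : ℝ) = p * qq A ^ M := by
      rw [hp]
      unfold dens
      field_simp
    rw [h6]
    ring
  have h4 : (T.card : ℝ) * Real.exp (lam * ((p + δ) * n)) ≤
      qq A ^ L * Real.exp (n * (p * (lam + lam ^ 2))) := by
    calc (T.card : ℝ) * Real.exp (lam * ((p + δ) * n))
        = ∑ u ∈ T, Real.exp (lam * ((p + δ) * n)) := by rw [sum_const, nsmul_eq_mul]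
      _ ≤ ∑ u ∈ T, ∏ j ∈ range n, g (win (ext u) M (r + j * M)) := by
          refine sum_le_sum fun u hu => ?_
          rw [h2]
          rw [hT, mem_filter] at hu
          refine Real.exp_le_exp.mpr (mul_le_mul_of_nonneg_left hu.2 (by positivity))
      _ ≤ ∑ u, ∏ j ∈ range n, g (win (ext u) M (r + j * M)) := by
          refine sum_le_sum_of_subset_of_nonneg (subset_univ _) fun u _ _ => ?_
          exact prod_nonneg fun j _ => hg0 _
      _ = qq A ^ (L - n * M) * (qq A ^ M * (1 + p * (Real.exp lam - 1))) ^ n := by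
          rw [h1, h3]
          rfl
      _ = qq A ^ L * (1 + p * (Real.exp lam - 1)) ^ n := by
          rw [mul_pow, ← pow_mul, ← mul_assoc, ← pow_add, mul_comm M n,
            Nat.sub_add_cancel (by omega)]
      _ ≤ qq A ^ L * (Real.exp (p * (lam + lam ^ 2))) ^ n := by
          have h5 : Real.exp lam - 1 ≤ lam + lam ^ 2 := by
            have h6 := Real.abs_exp_sub_one_sub_id_le (x := lam) (by
              rw [abs_le]
              constructor <;> (rw [hlam]; linarith))
            have := (abs_le.mp h6).2
            linarith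
          have h7 : 0 ≤ Real.exp lam - 1 := by
            have : 1 ≤ Real.exp lam := Real.one_le_exp (by rw [hlam]; linarith)
            linarith
          have h8 : 1 + p * (Real.exp lam - 1) ≤ Real.exp (p * (lam + lam ^ 2)) := by
            have h9 := Real.add_one_le_exp (p * (lam + lam ^ 2))
            nlinarith
          have h10 : 0 ≤ 1 + p * (Real.exp lam - 1) := by positivity
          gcongr
      _ = _ := by rw [← Real.exp_nat_mul]
  have h5 : (T.card : ℝ) ≤ qq A ^ L * Real.exp (n * (p * (lam + lam ^ 2))) *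
      Real.exp (-(lam * ((p + δ) * n))) := by
    rw [Real.exp_neg, ← div_eq_mul_inv, le_div_iff₀ (Real.exp_pos _)]
    exact h4
  refine h5.trans ?_
  rw [mul_assoc, ← Real.exp_add]
  refine mul_le_mul_of_nonneg_left (Real.exp_le_exp.mpr ?_) (by positivity)
  have h6 : (0 : ℝ) ≤ n := Nat.cast_nonneg n
  have h7 : ↑n * (p * (lam + lam ^ 2)) + -(lam * ((p + δ) * ↑n)) = n * (p * lam ^ 2 - lam * δ) := by
    ring
  rw [h7]
  have h8 : p * lam ^ 2 - lam * δ ≤ -(δ ^ 2 / 4) := by
    rw [hlam]
    nlinarith
  nlinarith

theorem lower {M : ℕ} (S : Finset (Fin M → A)) {δ : ℝ} (hδ : 0 < δ) (hδ1 : δ ≤ 1) {n r L : ℕ}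
    (h : r + n * M ≤ L) :
    ((univ.filter fun u : Fin L → A =>
      (((range n).filter fun j => win (ext u) M (r + j * M) ∈ S).card : ℝ) ≤
      (dens S - δ) * n).card : ℝ) ≤
      qq A ^ L * Real.exp (-(δ ^ 2 / 4) * n) := by
  refine le_trans ?_ (upper Sᶜ hδ hδ1 h)
  rw [Nat.cast_le]
  refine card_le_card fun u hu => ?_
  rw [mem_filter] at hu ⊢
  refine ⟨hu.1, ?_⟩
  have h1 := card_filter_add_card_filter_not (s := range n)
    (fun j => win (ext u) M (r + j * M) ∈ S)
  simp only [mem_compl]
  rw [card_range] at h1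
  have h2 : (((range n).filter fun j => win (ext u) M (r + j * M) ∈ S).card : ℝ) +
      ((range n).filter fun j => ¬ win (ext u) M (r + j * M) ∈ S).card = n := by exact_mod_cast h1
  rw [dens_compl]
  linarith [hu.2]

end Pool.Agent.H201.NC
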