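import Pool.Agent.H201.NC.Bad

/-!
# Local criterion for the equidistribution of words
-/

set_option autoImplicit false

namespace Pool.Agent.H201.NC

open Finset Filter Topology

variable {A : Type*} [DecidableEq A]

/-- occurrences of `W` which are not good -/
def nbad (d : ℕ → A) {M : ℕ} (W : Finset (Fin M → A)) (G : ℕ → Prop) [DecidablePred G]
    (m L : ℕ) : ℕ := ((range L).filter fun i => win d M (m + i) ∈ W ∧ ¬ G (m + i)).card

theorem nbad_add (d : ℕ → A) {M : ℕ} (W : Finset (Fin M → A)) (G : ℕ → Prop) [DecidablePred G]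
    (m L L' : ℕ) : nbad d W G m (L + L') = nbad d W G m L + nbad d W G (m + L) L' := by
  unfold nbad
  simp only [card_filter]
  rw [sum_range_add]
  simp only [add_assoc]

theorem cover (d : ℕ → A) {M M' : ℕ} (W : Finset (Fin M → A)) (S : Finset (Fin M' → A)) {L : ℕ}
    (hL : 0 < L) (G : ℕ → Prop) [DecidablePred G] {pw ps δ : ℝ}
    (hG : ∀ m, G m → |(occ d W m L : ℝ) - pw * L| ≤ δ * L ∧
      |(occ d S m L : ℝ) - ps * L| ≤ δ * L) :
    ∀ R n : ℕ, ∃ C : ℕ, C ≤ R ∧ (occ d W n R : ℝ) ≤ (pw + δ) * C + nbad d W G n R + L ∧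
      (occ d S n R : ℝ) ≤ (ps + δ) * C + (R - C) + L ∧ (ps - δ) * C - L ≤ occ d S n R := by
  intro R
  induction R using Nat.strong_induction_on with
  | _ R ih =>
    intro n
    by_cases hRL : R < L
    · refine ⟨0, Nat.zero_le _, ?_, ?_, ?_⟩
      · have h1 : (occ d W n R : ℝ) ≤ R := by exact_mod_cast occ_le d W n R
        have h2 : (R : ℝ) ≤ L := by exact_mod_cast hRL.le
        have h3 : (0 : ℝ) ≤ nbad d W G n R := Nat.cast_nonneg _
        push_cast
        linarith
      · have h1 : (occ d S n R : ℝ) ≤ R := by exact_mod_cast occ_le d S n R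
        have h3 : (0 : ℝ) ≤ L := Nat.cast_nonneg _
        push_cast
        linarith
      · have h1 : (0 : ℝ) ≤ occ d S n R := Nat.cast_nonneg _
        have h3 : (0 : ℝ) ≤ L := Nat.cast_nonneg _
        push_cast
        linarith
    · rw [not_lt] at hRL
      by_cases hg : G n
      · obtain ⟨R', rfl⟩ : ∃ R', R = L + R' := ⟨R - L, by omega⟩
        obtain ⟨C, h0, h1, h2, h3⟩ := ih R' (by omega) (n + L)
        obtain ⟨h4, h5⟩ := hG n hg
        rw [abs_le] at h4 h5
        have h6 : (occ d W n (L + R') : ℝ) = occ d W n L + occ d W (n + L) R' := by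
          exact_mod_cast occ_add d W n L R'
        have h7 : (occ d S n (L + R') : ℝ) = occ d S n L + occ d S (n + L) R' := by
          exact_mod_cast occ_add d S n L R'
        have h8 : (nbad d W G n (L + R') : ℝ) = nbad d W G n L + nbad d W G (n + L) R' := by
          exact_mod_cast nbad_add d W G n L R'
        have h9 : (0 : ℝ) ≤ nbad d W G n L := Nat.cast_nonneg _
        refine ⟨L + C, by omega, ?_, ?_, ?_⟩
        · rw [h6, h8]
          push_cast
          linarith [h4.2]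
        · rw [h7]
          push_cast
          linarith [h5.2]
        · rw [h7]
          push_cast
          linarith [h5.1]
      · obtain ⟨R', rfl⟩ : ∃ R', R = 1 + R' := ⟨R - 1, by omega⟩
        obtain ⟨C, h0, h1, h2, h3⟩ := ih R' (by omega) (n + 1)
        have h6 : (occ d W n (1 + R') : ℝ) = occ d W n 1 + occ d W (n + 1) R' := by
          exact_mod_cast occ_add d W n 1 R'
        have h7 : (occ d S n (1 + R') : ℝ) = occ d S n 1 + occ d S (n + 1) R' := by
          exact_mod_cast occ_add d S n 1 R'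
        have h8 : (nbad d W G n (1 + R') : ℝ) = nbad d W G n 1 + nbad d W G (n + 1) R' := by
          exact_mod_cast nbad_add d W G n 1 R'
        have h9 : (occ d W n 1 : ℝ) ≤ nbad d W G n 1 := by
          unfold occ nbad
          rw [Nat.cast_le]
          refine card_le_card fun i hi => ?_
          rw [mem_filter, mem_range] at hi ⊢
          have hi0 : i = 0 := by omega
          subst hi0
          exact ⟨hi.1, hi.2, by simpa using hg⟩
        have h10 : (occ d S n 1 : ℝ) ≤ 1 := by exact_mod_cast occ_le d S n 1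
        have h11 : (0 : ℝ) ≤ occ d S n 1 := Nat.cast_nonneg _
        refine ⟨C, by omega, ?_, ?_, ?_⟩
        · rw [h6, h8]
          linarith
        · rw [h7]
          push_cast
          linarith
        · rw [h7]
          linarith

variable [Inhabited A] [Fintype A]

/-- the number of bad occurrences -/
theorem nbad_le (d : ℕ → A) {M L : ℕ} (hML : M ≤ L) (W : Finset (Fin M → A))
    (B H : Finset (Fin L → A)) (N : ℕ) {K : ℝ} (hK : 0 ≤ K)
    (hu : ∀ u ∉ H, win (ext u) M 0 ∈ W → (occ d {u} 0 N : ℝ) ≤ K) :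
    (nbad d W (fun m => win d L m ∉ B) 0 N : ℝ) ≤ occ d H 0 N + B.card * K := by
  classical
  set B' := B.filter fun u => u ∉ H ∧ win (ext u) M 0 ∈ W with hB'
  have h1 : ((range N).filter fun i => win d M (0 + i) ∈ W ∧ ¬ win d L (0 + i) ∉ B) ⊆
      ((range N).filter fun i => win d L (0 + i) ∈ H) ∪
        B'.biUnion fun u => (range N).filter fun i => win d L (0 + i) ∈ ({u} : Finset (Fin L → A)) := by
    intro i hi
    rw [mem_filter, not_not] at hi
    by_cases hH : win d L (0 + i) ∈ H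
    · exact mem_union_left _ (mem_filter.mpr ⟨hi.1, hH⟩)
    · refine mem_union_right _ (mem_biUnion.mpr ⟨win d L (0 + i), ?_, ?_⟩)
      · rw [hB', mem_filter]
        refine ⟨hi.2.2, hH, ?_⟩
        rw [win_ext_win d (by omega), add_zero]
        exact hi.2.1
      · exact mem_filter.mpr ⟨hi.1, mem_singleton_self _⟩
  have h2 : (nbad d W (fun m => win d L m ∉ B) 0 N : ℝ) ≤ occ d H 0 N +
      ∑ u ∈ B', (occ d {u} 0 N : ℝ) := by
    unfold nbad occ
    have h3 := (card_le_card h1).trans (card_union_le _ _)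
    have h4 := h3.trans (Nat.add_le_add_left card_biUnion_le _)
    exact_mod_cast h4
  have h3 : ∑ u ∈ B', (occ d {u} 0 N : ℝ) ≤ B.card * K := by
    calc ∑ u ∈ B', (occ d {u} 0 N : ℝ) ≤ ∑ u ∈ B', K := by
          refine sum_le_sum fun u huB => ?_
          rw [hB', mem_filter] at huB
          exact hu u huB.2.1 huB.2.2
      _ = B'.card * K := by rw [sum_const, nsmul_eq_mul]
      _ ≤ B.card * K := by
          refine mul_le_mul_of_nonneg_right ?_ hK
          exact_mod_cast card_le_card (filter_subset _ _)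
  linarith

theorem arith {p s δ N C L η ow os nb : ℝ} (hp0 : 0 < p) (hp1 : p ≤ 1) (hδ0 : 0 < δ)
    (hδη : δ ≤ η * p / 20) (hN : 0 < N) (hs0 : 0 ≤ s) (hs1 : s ≤ 1) (hC0 : 0 ≤ C) (hC : C ≤ N)
    (h1 : (p - δ) * N ≤ ow) (h2 : nb ≤ 2 * δ * N) (k1 : ow ≤ (p + δ) * C + nb + L)
    (k2 : os ≤ (s + δ) * C + (N - C) + L) (k3 : (s - δ) * C - L ≤ os) :
    |os - s * N| ≤ η / 2 * N + L * (1 + 1 / p) := by
  have k7 : p * (N - C) ≤ 4 * δ * N + L := by
    have e1 : δ * C ≤ δ * N := mul_le_mul_of_nonneg_left hC hδ0.le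
    have e2 : (p - δ) * N ≤ (p + δ) * C + 2 * δ * N + L := by linarith
    linarith
  have k8 : N - C ≤ (4 * δ * N + L) / p := by
    rw [le_div_iff₀ hp0]
    linarith
  have e1 : (s + δ) * C ≤ (s + δ) * N := mul_le_mul_of_nonneg_left hC (by linarith)
  have e2 : s * (N - C) ≤ 1 * (N - C) := mul_le_mul_of_nonneg_right hs1 (by linarith)
  have e3 : δ * C ≤ δ * N := mul_le_mul_of_nonneg_left hC hδ0.le
  have k9 : |os - s * N| ≤ δ * N + (4 * δ * N + L) / p + L := by
    rw [abs_le]
    constructor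
    · linarith
    · linarith
  refine k9.trans ?_
  have e4 : δ * N + (4 * δ * N + L) / p + L = (δ + 4 * δ / p) * N + L * (1 + 1 / p) := by
    field_simp
    ring
  rw [e4]
  have e5 : δ + 4 * δ / p ≤ η / 2 := by
    have e3 : δ / p ≤ η / 20 := by
      rw [div_le_iff₀ hp0]
      linarith
    have e4 : δ ≤ δ / p := by
      rw [le_div_iff₀ hp0]
      nlinarith
    have e5 : 4 * δ / p = 4 * (δ / p) := by ring
    have e6 : 0 ≤ δ / p := by positivity
    linarith
  have := mul_le_mul_of_nonneg_right e5 hN.le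
  linarith

/-- **Local criterion.** -/
theorem core {ι : Type*} {l : Filter ι} {d : ι → ℕ → A} {N : ι → ℕ} (hN : Tendsto N l atTop)
    {M : ℕ} (hM : 0 < M) {W : Finset (Fin M → A)} (hW : W.Nonempty)
    (h1 : ∀ δ : ℝ, 0 < δ → ∀ᶠ i in l, (dens W - δ) * N i ≤ occ (d i) W 0 (N i))
    (h2 : ∀ ε : ℝ, 0 < ε → ∀ L0 : ℕ, ∃ L ≥ L0, ∃ H : Finset (Fin L → A),
      (∀ᶠ i in l, (occ (d i) H 0 (N i) : ℝ) ≤ ε * N i) ∧
      ∀ u ∉ H, win (ext u) M 0 ∈ W →
        ∀ᶠ i in l, (occ (d i) {u} 0 (N i) : ℝ) ≤ qq A ^ (-(1 - ε) * L) * N i)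
    {M' : ℕ} (hM' : 0 < M') (S : Finset (Fin M' → A)) :
    Tendsto (fun i => (occ (d i) S 0 (N i) : ℝ) / N i) l (𝓝 (dens S)) := by
  rw [Metric.tendsto_nhds]
  intro η hη
  have hq := qq_pos (A := A)
  set p := dens W with hp
  have hp1 : p ≤ 1 := dens_le_one W
  have hp0 : 0 < p := by
    rw [hp]
    unfold dens
    have : 0 < W.card := card_pos.mpr hW
    positivity
  set δ : ℝ := min 1 (η * p / 20) with hδ
  have hδ0 : 0 < δ := lt_min one_pos (by positivity)
  have hδ1 : δ ≤ 1 := min_le_left _ _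
  have hδη : δ ≤ η * p / 20 := min_le_right _ _
  obtain ⟨c1, hc1, L1, hL1⟩ := badset hM W hδ0 hδ1
  obtain ⟨c2, hc2, L2, hL2⟩ := badset hM' S hδ0 hδ1
  set c : ℝ := min c1 c2 with hc
  have hc0 : 0 < c := lt_min hc1 hc2
  have hlog : 0 ≤ Real.log (qq A) := Real.log_nonneg one_le_qq
  set ε : ℝ := min δ (c / (2 * (Real.log (qq A) + 1))) with hε
  have hε0 : 0 < ε := lt_min hδ0 (by positivity)
  have hεδ : ε ≤ δ := min_le_left _ _
  have hεc : ε * Real.log (qq A) ≤ c / 2 := by
    have h3 : ε ≤ c / (2 * (Real.log (qq A) + 1)) := min_le_right _ _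
    rw [le_div_iff₀ (by positivity)] at h3
    nlinarith
  have h3 : ∀ᶠ L : ℕ in atTop, 2 * Real.exp (-(c / 2) * L) ≤ δ := by
    have h4 : Tendsto (fun L : ℕ => 2 * Real.exp (-(c / 2) * L)) atTop (𝓝 (2 * 0)) := by
      refine Tendsto.const_mul 2 ?_
      refine Real.tendsto_exp_atBot.comp ?_
      have : Tendsto (fun L : ℕ => (L : ℝ)) atTop atTop := tendsto_natCast_atTop_atTop
      exact this.const_mul_atTop_of_neg (by linarith)
    rw [mul_zero] at h4
    exact h4.eventually_le_const hδ0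
  obtain ⟨L3, hL3⟩ := h3.exists_forall_of_atTop
  obtain ⟨L, hLge, H, hH1, hH2⟩ := h2 ε hε0 (max (max L1 L2) (max L3 M))
  have hLL1 : L1 ≤ L := (le_max_left _ _).trans ((le_max_left _ _).trans hLge)
  have hLL2 : L2 ≤ L := (le_max_right _ _).trans ((le_max_left _ _).trans hLge)
  have hLL3 : L3 ≤ L := (le_max_left _ _).trans ((le_max_right _ _).trans hLge)
  have hML : M ≤ L := (le_max_right _ _).trans ((le_max_right _ _).trans hLge)
  have hLpos : 0 < L := by omega
  obtain ⟨B1, hB1, hB1'⟩ := hL1 L hLL1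
  obtain ⟨B2, hB2, hB2'⟩ := hL2 L hLL2
  have hcardB : ((B1 ∪ B2).card : ℝ) * qq A ^ (-(1 - ε) * L) ≤ δ := by
    have e1 : ((B1 ∪ B2).card : ℝ) ≤ B1.card + B2.card := by exact_mod_cast card_union_le _ _
    have e2 : Real.exp (-c1 * L) ≤ Real.exp (-c * L) := by
      refine Real.exp_le_exp.mpr ?_
      have : c ≤ c1 := min_le_left _ _
      have : (0 : ℝ) ≤ L := Nat.cast_nonneg L
      nlinarith
    have e3 : Real.exp (-c2 * L) ≤ Real.exp (-c * L) := by
      refine Real.exp_le_exp.mpr ?_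
      have : c ≤ c2 := min_le_right _ _
      have : (0 : ℝ) ≤ L := Nat.cast_nonneg L
      nlinarith
    have e4 : ((B1 ∪ B2).card : ℝ) ≤ 2 * (qq A ^ L * Real.exp (-c * L)) := by
      have : 0 < qq A ^ L := by positivity
      nlinarith
    have e5 : qq A ^ L * qq A ^ (-(1 - ε) * L) = Real.exp (ε * L * Real.log (qq A)) := by
      rw [← Real.rpow_natCast, ← Real.rpow_add hq, Real.rpow_def_of_pos hq]
      congr 1
      ring
    have e6 : (0 : ℝ) ≤ qq A ^ (-(1 - ε) * L) := (Real.rpow_pos_of_pos hq _).le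
    calc ((B1 ∪ B2).card : ℝ) * qq A ^ (-(1 - ε) * L)
        ≤ 2 * (qq A ^ L * Real.exp (-c * L)) * qq A ^ (-(1 - ε) * L) := by gcongr
      _ = 2 * (Real.exp (-c * L) * (qq A ^ L * qq A ^ (-(1 - ε) * L))) := by ring
      _ = 2 * Real.exp (-c * L + ε * L * Real.log (qq A)) := by rw [e5, Real.exp_add]
      _ ≤ 2 * Real.exp (-(c / 2) * L) := by
          refine mul_le_mul_of_nonneg_left (Real.exp_le_exp.mpr ?_) (by norm_num)
          have : (0 : ℝ) ≤ L := Nat.cast_nonneg L
          nlinarith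
      _ ≤ δ := hL3 L hLL3
  have h4 : ∀ᶠ i in l, ∀ u : Fin L → A, u ∉ H → win (ext u) M 0 ∈ W →
      (occ (d i) {u} 0 (N i) : ℝ) ≤ qq A ^ (-(1 - ε) * L) * N i := by
    rw [Filter.eventually_all]
    intro u
    by_cases hu : u ∉ H
    · by_cases hw : win (ext u) M 0 ∈ W
      · filter_upwards [hH2 u hu hw] with i hi _ _ using hi
      · exact Eventually.of_forall fun i _ h => absurd h hw
    · exact Eventually.of_forall fun i h => absurd h hu
  have h5 : ∀ᶠ i in l, 2 * (L * (1 + 1 / p)) / η + 1 ≤ (N i : ℝ) :=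
    (tendsto_natCast_atTop_atTop.comp hN).eventually_ge_atTop _
  filter_upwards [h1 δ hδ0, hH1, h4, h5] with i hi1 hi2 hi3 hi4
  set G : ℕ → Prop := fun m => win (d i) L m ∉ B1 ∪ B2 with hG
  have hNpos : (0 : ℝ) < N i := by
    have : 0 ≤ 2 * (L * (1 + 1 / p)) / η := by positivity
    linarith
  obtain ⟨C, k0, k1, k2, k3⟩ := cover (d i) W S hLpos G (pw := p) (ps := dens S) (δ := δ)
    (fun m hm => by
      rw [hG] at hm
      simp only [mem_union, not_or] at hm
      exact ⟨hB1' _ _ hm.1, hB2' _ _ hm.2⟩) (N i) 0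
  have k4 := nbad_le (d i) hML W (B1 ∪ B2) H (N i)
    (K := qq A ^ (-(1 - ε) * L) * N i) (by positivity) (fun u hu hw => hi3 u hu hw)
  have k5 : (nbad (d i) W G 0 (N i) : ℝ) ≤ 2 * δ * N i := by
    refine k4.trans ?_
    have : ((B1 ∪ B2).card : ℝ) * (qq A ^ (-(1 - ε) * L) * N i) ≤ δ * N i := by
      rw [← mul_assoc]
      exact mul_le_mul_of_nonneg_right hcardB hNpos.le
    have : ε * N i ≤ δ * N i := mul_le_mul_of_nonneg_right hεδ hNpos.le
    linarith
  have hC : (C : ℝ) ≤ N i := by exact_mod_cast k0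
  have hC0 : (0 : ℝ) ≤ C := Nat.cast_nonneg C
  have k9 := arith hp0 hp1 hδ0 hδη hNpos (dens_nonneg S) (dens_le_one S) hC0 hC hi1 k5 k1 k2 k3
  rw [Real.dist_eq]
  have k11 : (occ (d i) S 0 (N i) : ℝ) / N i - dens S =
      ((occ (d i) S 0 (N i) : ℝ) - dens S * N i) / N i := by
    field_simp
  rw [k11, abs_div, abs_of_pos hNpos, div_lt_iff₀ hNpos]
  have k12 : L * (1 + 1 / p) < η / 2 * N i := by
    have e1 : 2 * (L * (1 + 1 / p)) / η < N i := by linarith
    rw [div_lt_iff₀ hη] at e1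
    linarith
  linarith

end Pool.Agent.H201.NC
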