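import Pool.Agent.H201.NC.Gen

/-!
# Words of digits of integers
-/

set_option autoImplicit false

namespace Pool.Agent.H201.NC

open Finset Filter Topology

variable {q : ℕ} [NeZero q]

/-- the digits of `a` in base `q`, least significant first -/
def dg (q : ℕ) [NeZero q] (a k : ℕ) : Fin q := Fin.ofNat q (a / q ^ k)

/-- the value of a word -/
def code {k : ℕ} (u : Fin k → Fin q) : ℕ := (finFunctionFinEquiv u : ℕ)

omit [NeZero q] in
theorem code_lt {k : ℕ} (u : Fin k → Fin q) : code u < q ^ k := (finFunctionFinEquiv u).2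

omit [NeZero q] in
theorem code_inj {k : ℕ} {u v : Fin k → Fin q} (h : code u = code v) : u = v :=
  finFunctionFinEquiv.injective (Fin.ext h)

omit [NeZero q] in
theorem code_surj {k m : ℕ} (h : m < q ^ k) : ∃ u : Fin k → Fin q, code u = m := by
  refine ⟨finFunctionFinEquiv.symm ⟨m, h⟩, ?_⟩
  unfold code
  rw [Equiv.apply_symm_apply]

theorem code_win (a k n : ℕ) : code (win (dg q a) k n) = a / q ^ n % q ^ k := by
  have hq : 0 < q := Nat.pos_of_ne_zero (NeZero.ne q)
  have hlt : a / q ^ n % q ^ k < q ^ k := Nat.mod_lt _ (pow_pos hq k)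
  have h : win (dg q a) k n = finFunctionFinEquiv.symm ⟨a / q ^ n % q ^ k, hlt⟩ := by
    funext i
    have h1 : finFunctionFinEquiv.symm ⟨a / q ^ n % q ^ k, hlt⟩ i =
        ⟨(a / q ^ n % q ^ k) / q ^ (i : ℕ) % q, Nat.mod_lt _ hq⟩ := rfl
    rw [h1]
    ext
    show (a / q ^ (n + i)) % q = (a / q ^ n % q ^ k) / q ^ (i : ℕ) % q
    obtain ⟨j, hj⟩ : ∃ j, k = i + 1 + j := ⟨k - (i + 1), by omega⟩
    have h2' : ∀ r : ℕ, k = r + 1 + j → q ^ k = q ^ r * (q * q ^ j) := by
      intro r hr
      rw [hr, pow_add, pow_succ]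
      ring
    have h2 := h2' i hj
    rw [pow_add, ← Nat.div_div_eq_div_mul, h2, Nat.mod_mul_right_div_self, Nat.mod_mul_right_mod]
  unfold code
  rw [h, Equiv.apply_symm_apply]

/-- the words with values in `T` -/
def wd (q : ℕ) [NeZero q] (k : ℕ) (T : Finset ℕ) : Finset (Fin k → Fin q) :=
  univ.filter fun u => code u ∈ T

theorem card_wd (k : ℕ) {T : Finset ℕ} (hT : T ⊆ range (q ^ k)) : (wd q k T).card = T.card := by
  refine card_bij (fun u _ => code u) (fun u hu => ?_) (fun u _ v _ h => code_inj h) (fun m hm => ?_)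
  · unfold wd at hu
    rw [mem_filter] at hu
    exact hu.2
  · obtain ⟨u, hu⟩ := code_surj (q := q) (mem_range.mp (hT hm))
    refine ⟨u, ?_, hu⟩
    unfold wd
    rw [mem_filter]
    exact ⟨mem_univ _, hu ▸ hm⟩

theorem occ_wd (a k : ℕ) (T : Finset ℕ) (m N : ℕ) :
    occ (dg q a) (wd q k T) m N =
      ((range N).filter fun i => a / q ^ (m + i) % q ^ k ∈ T).card := by
  unfold occ wd
  simp only [mem_filter, mem_univ, true_and, code_win]

theorem occ_single (a k : ℕ) (w : Fin k → Fin q) (m N : ℕ) :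
    occ (dg q a) {w} m N = ((range N).filter fun i => a / q ^ (m + i) % q ^ k = code w).card := by
  unfold occ
  congr 1
  ext i
  simp only [mem_filter, mem_singleton]
  refine and_congr_right fun _ => ?_
  rw [← code_win]
  exact ⟨fun h => by rw [h], fun h => code_inj h⟩

/-! ### multiplication -/

theorem qq_fin : qq (Fin q) = q := by
  unfold qq
  rw [Fintype.card_fin]

/-- multiplication by `c`, with the carry from the `L` digits below -/
theorem mul_digits {a c L M n : ℕ} (hc : 0 < c)
    (hgood : c * (a / q ^ n % q ^ (L + M)) % q ^ L + c ≤ q ^ L) :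
    c * a / q ^ (L + n) % q ^ M = c * (a / q ^ n % q ^ (L + M)) / q ^ L % q ^ M := by
  have hq : 0 < q := Nat.pos_of_ne_zero (NeZero.ne q)
  have hqn : 0 < q ^ n := pow_pos hq n
  have hqL : 0 < q ^ L := pow_pos hq L
  set Y := a / q ^ n with hY
  set B := a % q ^ n with hB
  set X := Y % q ^ (L + M) with hX
  set t := Y / q ^ (L + M) with ht
  have ha : a = q ^ n * Y + B := (Nat.div_add_mod a (q ^ n)).symm
  have hYX : Y = q ^ (L + M) * t + X := (Nat.div_add_mod Y (q ^ (L + M))).symm
  have hBlt : B < q ^ n := Nat.mod_lt _ hqn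
  set κ := c * B / q ^ n with hκ
  have hκc : κ < c := by
    rw [hκ, Nat.div_lt_iff_lt_mul hqn]
    exact Nat.mul_lt_mul_of_pos_left hBlt hc
  have h1 : c * a / q ^ n = c * Y + κ := by
    rw [ha, hκ, show c * (q ^ n * Y + B) = c * B + q ^ n * (c * Y) by ring,
      Nat.add_mul_div_left _ _ hqn, add_comm]
  have h2 : c * a / q ^ (L + n) = (c * Y + κ) / q ^ L := by
    rw [← h1, Nat.div_div_eq_div_mul, add_comm L n, pow_add]
  have h3 : c * Y + κ = (c * X + κ) + q ^ L * (c * t * q ^ M) := by
    rw [hYX, pow_add]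
    ring
  have h4 : (c * X + κ) / q ^ L = c * X / q ^ L := by
    have h5 : c * X + κ = q ^ L * (c * X / q ^ L) + (c * X % q ^ L + κ) := by
      have := Nat.div_add_mod (c * X) (q ^ L)
      omega
    rw [h5, Nat.mul_add_div hqL, Nat.div_eq_of_lt (by omega : c * X % q ^ L + κ < q ^ L), add_zero]
  rw [h2, h3, Nat.add_mul_div_left _ _ hqL, h4, mul_comm (c * t) (q ^ M)]
  exact Nat.add_mul_mod_self_left _ _ _

/-- the words which are mapped to the value `w` -/
def good (q c L M w : ℕ) : Finset ℕ :=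
  (range (q ^ (L + M))).filter fun X => c * X / q ^ L % q ^ M = w

/-- the words with an undetermined carry -/
def amb (q c L M : ℕ) : Finset ℕ :=
  (range (q ^ (L + M))).filter fun X => q ^ L < c * X % q ^ L + c

omit [NeZero q] in
theorem card_pull {Q c : ℕ} (hQ : 0 < Q) (hc : Nat.Coprime c Q) (P : ℕ → Prop) [DecidablePred P] :
    ((range Q).filter fun X => P (c * X % Q)).card = ((range Q).filter P).card := by
  have hinj : Set.InjOn (fun X => c * X % Q) (range Q) := by
    intro x hx y hy hxy
    rw [coe_range, Set.mem_Iio] at hx hy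
    have h1 : c * x ≡ c * y [MOD Q] := hxy
    have h2 : x ≡ y [MOD Q] := Nat.ModEq.cancel_left_of_coprime (hc.symm) h1
    rw [Nat.ModEq, Nat.mod_eq_of_lt hx, Nat.mod_eq_of_lt hy] at h2
    exact h2
  have himg : (range Q).image (fun X => c * X % Q) = range Q := by
    refine eq_of_subset_of_card_le (fun z hz => ?_) ?_
    · rw [mem_image] at hz
      obtain ⟨x, _, rfl⟩ := hz
      exact mem_range.mpr (Nat.mod_lt _ hQ)
    · rw [card_image_of_injOn hinj]
  conv_rhs => rw [← himg, filter_image]
  rw [card_image_of_injOn]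
  exact hinj.mono (by
    intro x hx
    rw [mem_coe, mem_filter] at hx
    exact hx.1)

theorem card_good {c L M w : ℕ} (hc : Nat.Coprime c q) (hw : w < q ^ M) :
    (good q c L M w).card = q ^ L := by
  have hq : 0 < q := Nat.pos_of_ne_zero (NeZero.ne q)
  have hqL : 0 < q ^ L := pow_pos hq L
  have h1 : good q c L M w = (range (q ^ (L + M))).filter fun X =>
      (c * X % q ^ (L + M)) / q ^ L = w := by
    unfold good
    refine filter_congr fun X _ => ?_
    rw [pow_add, Nat.mod_mul_right_div_self]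
  rw [h1, card_pull (pow_pos hq _) (hc.pow_right _) (fun z => z / q ^ L = w)]
  have h2 : ((range (q ^ (L + M))).filter fun z => z / q ^ L = w) =
      Finset.Ico (w * q ^ L) ((w + 1) * q ^ L) := by
    ext z
    rw [mem_filter, mem_range, Finset.mem_Ico, Nat.div_eq_iff hqL]
    have h3 : (w + 1) * q ^ L ≤ q ^ M * q ^ L := Nat.mul_le_mul_right _ hw
    have h4 : q ^ M * q ^ L = q ^ (L + M) := by rw [pow_add, mul_comm]
    have h5 : (w + 1) * q ^ L = w * q ^ L + q ^ L := by ring
    constructor
    · rintro ⟨h6, h7, h8⟩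
      omega
    · rintro ⟨h6, h7⟩
      refine ⟨by omega, by omega, by omega⟩
  rw [h2, Nat.card_Ico, add_mul, one_mul, Nat.add_sub_cancel_left]

theorem card_amb {c L M : ℕ} (hc : Nat.Coprime c q) :
    (amb q c L M).card ≤ c * q ^ M := by
  have hq : 0 < q := Nat.pos_of_ne_zero (NeZero.ne q)
  have hqL : 0 < q ^ L := pow_pos hq L
  have h1 : amb q c L M = (range (q ^ (L + M))).filter fun X =>
      q ^ L < (c * X % q ^ (L + M)) % q ^ L + c := by
    unfold amb
    refine filter_congr fun X _ => ?_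
    rw [pow_add, Nat.mod_mul_right_mod]
  rw [h1, card_pull (pow_pos hq _) (hc.pow_right _) (fun z => q ^ L < z % q ^ L + c)]
  have h2 : ((range (q ^ (L + M))).filter fun z => q ^ L < z % q ^ L + c).card ≤
      (range c ×ˢ range (q ^ M)).card := by
    refine card_le_card_of_injOn (fun z => (q ^ L - z % q ^ L, z / q ^ L)) (fun z hz => ?_)
      (fun x hx y hy hxy => ?_)
    · rw [mem_coe, mem_filter, mem_range] at hz
      rw [mem_coe, mem_product, mem_range, mem_range]
      refine ⟨by have := hz.2; have := Nat.mod_lt z hqL; simp only; omega, ?_⟩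
      rw [Nat.div_lt_iff_lt_mul hqL]
      calc z < q ^ (L + M) := hz.1
        _ = q ^ M * q ^ L := by rw [pow_add, mul_comm]
    · simp only [Prod.mk.injEq] at hxy
      have h3 := Nat.mod_lt x hqL
      have h4 := Nat.mod_lt y hqL
      rw [← Nat.div_add_mod x (q ^ L), ← Nat.div_add_mod y (q ^ L), hxy.2]
      congr 1
      omega
  rwa [card_product, card_range, card_range] at h2

end Pool.Agent.H201.NC
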