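import Pool.Agent.H201.NC.Hot

/-!
# Equivalent forms of the equidistribution of words
-/

set_option autoImplicit false

namespace Pool.Agent.H201.NC

open Finset Filter Topology

variable {A ι : Type*} [DecidableEq A] [Fintype A] [Inhabited A]

/-- every word `w` of `k` letters has the asymptotic frequency `q^(-k)` -/
def Equi (l : Filter ι) (d : ι → ℕ → A) (N : ι → ℕ) : Prop :=
  ∀ k : ℕ, 0 < k → ∀ w : Fin k → A,
    Tendsto (fun i => (occ (d i) {w} 0 (N i) : ℝ) / N i) l (𝓝 ((qq A ^ k)⁻¹))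

/-- the words of `W` have at least the right frequency -/
def Low (l : Filter ι) (d : ι → ℕ → A) (N : ι → ℕ) {M : ℕ} (W : Finset (Fin M → A)) : Prop :=
  ∀ δ : ℝ, 0 < δ → ∀ᶠ i in l, (dens W - δ) * N i ≤ occ (d i) W 0 (N i)

theorem occ_sum (d : ℕ → A) {M : ℕ} (S : Finset (Fin M → A)) (m L : ℕ) :
    occ d S m L = ∑ w ∈ S, occ d {w} m L := by
  unfold occ
  simp only [card_filter]
  rw [sum_comm]
  refine sum_congr rfl fun i _ => ?_
  by_cases h : win d M (m + i) ∈ S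
  · rw [if_pos h, sum_eq_single (win d M (m + i))]
    · simp
    · intro w _ hw
      rw [if_neg]
      rw [mem_singleton]
      exact fun h => hw h.symm
    · intro h'
      exact absurd h h'
  · rw [if_neg h, sum_eq_zero]
    intro w hw
    rw [if_neg]
    rw [mem_singleton]
    rintro rfl
    exact h hw

theorem Equi.set {l : Filter ι} {d : ι → ℕ → A} {N : ι → ℕ} (h : Equi l d N) {M : ℕ} (hM : 0 < M)
    (S : Finset (Fin M → A)) :
    Tendsto (fun i => (occ (d i) S 0 (N i) : ℝ) / N i) l (𝓝 (dens S)) := by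
  have h1 := tendsto_finsetSum S fun w _ => h M hM w
  have h2 : ∑ w ∈ S, (qq A ^ M)⁻¹ = dens S := by
    rw [sum_const, nsmul_eq_mul]
    rfl
  rw [h2] at h1
  refine h1.congr fun i => ?_
  rw [occ_sum]
  push_cast
  rw [sum_div]

theorem Equi.low {l : Filter ι} {d : ι → ℕ → A} {N : ι → ℕ} (hN : Tendsto N l atTop)
    (h : Equi l d N) {M : ℕ} (hM : 0 < M) (W : Finset (Fin M → A)) : Low l d N W := by
  intro δ hδ
  filter_upwards [(h.set hM W).eventually (lt_mem_nhds (sub_lt_self _ hδ)),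
    hN.eventually_gt_atTop 0] with i hi hNi
  have hNi' : (0 : ℝ) < N i := by exact_mod_cast hNi
  rw [lt_div_iff₀ hNi'] at hi
  exact hi.le

theorem Equi.cold {l : Filter ι} {d : ι → ℕ → A} {N : ι → ℕ} (hN : Tendsto N l atTop)
    (h : Equi l d N) (hA : 2 ≤ Fintype.card A) {ε : ℝ} (hε : 0 < ε) {L : ℕ} (hL : 0 < L)
    (u : Fin L → A) :
    ∀ᶠ i in l, (occ (d i) {u} 0 (N i) : ℝ) ≤ qq A ^ (-(1 - ε) * L) * N i := by
  have hq : 1 < qq A := by
    unfold qq
    exact_mod_cast hA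
  have hq0 : 0 < qq A := by linarith
  have h1 : (qq A ^ L)⁻¹ < qq A ^ (-(1 - ε) * L) := by
    rw [← Real.rpow_natCast, ← Real.rpow_neg hq0.le]
    refine Real.rpow_lt_rpow_of_exponent_lt hq ?_
    have : (0 : ℝ) < L := by exact_mod_cast hL
    nlinarith
  filter_upwards [(h L hL u).eventually (gt_mem_nhds h1), hN.eventually_gt_atTop 0] with i hi hNi
  have hNi' : (0 : ℝ) < N i := by exact_mod_cast hNi
  rw [div_lt_iff₀ hNi'] at hi
  exact hi.le

/-- the criterion by words -/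
theorem equi_iff_words {l : Filter ι} {d : ι → ℕ → A} {N : ι → ℕ} (hN : Tendsto N l atTop)
    (hA : 2 ≤ Fintype.card A) {M : ℕ} (hM : 0 < M) {W : Finset (Fin M → A)} (hW : W.Nonempty) :
    Equi l d N ↔ Low l d N W ∧ ∀ ε : ℝ, 0 < ε → ∀ L0 : ℕ, ∃ L ≥ L0, ∃ H : Finset (Fin L → A),
      (∀ᶠ i in l, (occ (d i) H 0 (N i) : ℝ) ≤ ε * N i) ∧
      ∀ u ∉ H, win (ext u) M 0 ∈ W →
        ∀ᶠ i in l, (occ (d i) {u} 0 (N i) : ℝ) ≤ qq A ^ (-(1 - ε) * L) * N i := by
  constructor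
  · intro h
    refine ⟨h.low hN hM W, fun ε hε L0 => ⟨L0 + 1, by omega, ∅, ?_, fun u _ _ =>
      h.cold hN hA hε (by omega) u⟩⟩
    refine Eventually.of_forall fun i => ?_
    have : occ (d i) (∅ : Finset (Fin (L0 + 1) → A)) 0 (N i) = 0 := by
      unfold occ
      simp
    rw [this]
    push_cast
    positivity
  · rintro ⟨h1, h2⟩ k hk w
    have := core hN hM hW h1 h2 hk {w}
    unfold dens at this
    rw [card_singleton, Nat.cast_one, one_div] at this
    exact this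

/-- the criterion by points -/
theorem equi_iff_points {l : Filter ι} {d : ι → ℕ → A} {N : ι → ℕ} (hN : Tendsto N l atTop)
    (hA : 2 ≤ Fintype.card A) {M : ℕ} (hM : 0 < M) {W : Finset (Fin M → A)} (hW : W.Nonempty) :
    Equi l d N ↔ Low l d N W ∧ ∀ y : ℕ → A, win y M 0 ∈ W → ∀ ε : ℝ, 0 < ε → ∃ K : ℕ,
      ∀ L ≥ K, ∀ᶠ i in l, (occ (d i) {win y L 0} 0 (N i) : ℝ) ≤ qq A ^ (-(1 - ε) * L) * N i := by
  constructor
  · intro h
    exact ⟨h.low hN hM W, fun y _ ε hε => ⟨1, fun L hL => h.cold hN hA hε (by omega) _⟩⟩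
  · rintro ⟨h1, h2⟩ k hk w
    by_contra hcon
    have h3 : dens ({w} : Finset (Fin k → A)) = (qq A ^ k)⁻¹ := by
      unfold dens
      rw [card_singleton, Nat.cast_one, one_div]
    rw [← h3] at hcon
    obtain ⟨ε, hε, y, hy, hK⟩ := hot hN hM hW h1 hk {w} hcon
    obtain ⟨K, hK'⟩ := h2 y hy ε hε
    obtain ⟨L, hL, hf⟩ := hK K
    refine hf ((hK' L hL).mono fun i hi => ?_)
    rw [not_lt]
    exact hi

end Pool.Agent.H201.NC
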