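import Pool.Agent.H201.NC.Core

/-!
# Hot points
-/

set_option autoImplicit false

namespace Pool.Agent.H201.NC

open Finset Filter Topology

variable {A ι : Type*}

open Classical in
/-- number of the `n < N` for which the shifted sequence is in `E` -/
noncomputable def cn (d : ℕ → A) (E : Set (ℕ → A)) (N : ℕ) : ℕ :=
  ((range N).filter fun n => (fun k => d (n + k)) ∈ E).card

noncomputable def fr (d : ι → ℕ → A) (N : ι → ℕ) (E : Set (ℕ → A)) (i : ι) : ℝ :=
  (cn (d i) E (N i) : ℝ) / N i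

theorem fr_mem (d : ι → ℕ → A) (N : ι → ℕ) (E : Set (ℕ → A)) (i : ι) :
    fr d N E i ∈ Set.Icc (0 : ℝ) 1 := by
  classical
  unfold fr
  refine ⟨by positivity, ?_⟩
  refine div_le_one_of_le₀ ?_ (Nat.cast_nonneg _)
  unfold cn
  exact_mod_cast (card_filter_le _ _).trans (card_range _).le

theorem fr_mono (d : ι → ℕ → A) (N : ι → ℕ) {E F : Set (ℕ → A)} (h : E ⊆ F) (i : ι) :
    fr d N E i ≤ fr d N F i := by
  classical
  unfold fr
  refine div_le_div_of_nonneg_right ?_ (Nat.cast_nonneg _)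
  unfold cn
  exact_mod_cast card_le_card (monotone_filter_right _ fun n _ hn => h hn)

theorem fr_union (d : ι → ℕ → A) (N : ι → ℕ) (E F : Set (ℕ → A)) (i : ι) :
    fr d N (E ∪ F) i ≤ fr d N E i + fr d N F i := by
  classical
  unfold fr
  rw [← add_div]
  refine div_le_div_of_nonneg_right ?_ (Nat.cast_nonneg _)
  have : cn (d i) (E ∪ F) (N i) ≤ cn (d i) E (N i) + cn (d i) F (N i) := by
    unfold cn
    refine (card_le_card ?_).trans (card_union_le _ _)
    intro n hn
    simp only [mem_filter, mem_union, Set.mem_union] at hn ⊢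
    tauto
  exact_mod_cast this

theorem fr_diff (d : ι → ℕ → A) (N : ι → ℕ) {E F : Set (ℕ → A)} (h : E ⊆ F) (i : ι) :
    fr d N (F \ E) i = fr d N F i - fr d N E i := by
  classical
  unfold fr
  rw [← sub_div]
  congr 1
  rw [eq_sub_iff_add_eq]
  have h1 : cn (d i) (F \ E) (N i) + cn (d i) E (N i) = cn (d i) F (N i) := by
    unfold cn
    rw [card_filter, card_filter, card_filter, ← sum_add_distrib]
    refine sum_congr rfl fun n _ => ?_
    have h2 := @h (fun k => d i (n + k))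
    by_cases hE : (fun k => d i (n + k)) ∈ E
    · rw [if_neg (fun h3 => h3.2 hE), if_pos hE, if_pos (h2 hE)]
    · by_cases hF : (fun k => d i (n + k)) ∈ F
      · rw [if_pos (Set.mem_sdiff _ |>.mpr ⟨hF, hE⟩), if_neg hE, if_pos hF]
      · rw [if_neg (fun h3 => hF h3.1), if_neg hE, if_neg hF]
  exact_mod_cast h1

theorem exists_lim (g : Ultrafilter ι) {f : ι → ℝ} (h : ∀ i, f i ∈ Set.Icc (0 : ℝ) 1) :
    ∃ x ∈ Set.Icc (0 : ℝ) 1, Tendsto f g (𝓝 x) := by
  have h1 : ((g.map f : Ultrafilter ℝ) : Filter ℝ) ≤ 𝓟 (Set.Icc 0 1) := by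
    rw [le_principal_iff, Ultrafilter.coe_map, Filter.mem_map]
    exact univ_mem' h
  exact isCompact_Icc.ultrafilter_le_nhds (g.map f) h1

/-- the asymptotic frequency along the ultrafilter `g` -/
noncomputable def mm (g : Ultrafilter ι) (d : ι → ℕ → A) (N : ι → ℕ) (E : Set (ℕ → A)) : ℝ :=
  Classical.choose (exists_lim g (fr_mem d N E))

theorem mm_tendsto (g : Ultrafilter ι) (d : ι → ℕ → A) (N : ι → ℕ) (E : Set (ℕ → A)) :
    Tendsto (fr d N E) g (𝓝 (mm g d N E)) := (Classical.choose_spec (exists_lim g (fr_mem d N E))).2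

theorem mm_mem (g : Ultrafilter ι) (d : ι → ℕ → A) (N : ι → ℕ) (E : Set (ℕ → A)) :
    mm g d N E ∈ Set.Icc (0 : ℝ) 1 := (Classical.choose_spec (exists_lim g (fr_mem d N E))).1

section

variable {g : Ultrafilter ι} {d : ι → ℕ → A} {N : ι → ℕ}

theorem mm_mono {E F : Set (ℕ → A)} (h : E ⊆ F) : mm g d N E ≤ mm g d N F :=
  le_of_tendsto_of_tendsto' (mm_tendsto g d N E) (mm_tendsto g d N F) (fr_mono d N h)

theorem mm_union (E F : Set (ℕ → A)) : mm g d N (E ∪ F) ≤ mm g d N E + mm g d N F :=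
  le_of_tendsto_of_tendsto' (mm_tendsto g d N _) ((mm_tendsto g d N E).add (mm_tendsto g d N F))
    (fr_union d N E F)

theorem mm_diff {E F : Set (ℕ → A)} (h : E ⊆ F) :
    mm g d N (F \ E) = mm g d N F - mm g d N E := by
  refine tendsto_nhds_unique (mm_tendsto g d N _) ?_
  have := (mm_tendsto g d N F).sub (mm_tendsto g d N E)
  refine this.congr fun i => ?_
  rw [fr_diff d N h]

theorem mm_empty : mm g d N (∅ : Set (ℕ → A)) = 0 := by
  have h := mm_diff (g := g) (d := d) (N := N) (Set.Subset.refl (∅ : Set (ℕ → A)))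
  rw [sub_self, Set.sdiff_self] at h
  exact h

theorem mm_nonempty {E : Set (ℕ → A)} (h : 0 < mm g d N E) : E.Nonempty := by
  by_contra hE
  rw [Set.not_nonempty_iff_eq_empty] at hE
  rw [hE, mm_empty] at h
  exact lt_irrefl _ h

theorem mm_biUnion (F : ℕ → Set (ℕ → A)) (J : ℕ) :
    mm g d N (⋃ K ∈ range J, F K) ≤ ∑ K ∈ range J, mm g d N (F K) := by
  induction J with
  | zero => simp [mm_empty]
  | succ J ih =>
    rw [sum_range_succ]
    have h1 : (⋃ K ∈ range (J + 1), F K) = (⋃ K ∈ range J, F K) ∪ F J := by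
      ext y
      simp only [Set.mem_iUnion, mem_range, Set.mem_union, exists_prop]
      constructor
      · rintro ⟨K, hK, hy⟩
        rcases Nat.lt_succ_iff_lt_or_eq.mp hK with h | h
        · exact Or.inl ⟨K, h, hy⟩
        · exact Or.inr (h ▸ hy)
      · rintro (⟨K, hK, hy⟩ | hy)
        · exact ⟨K, by omega, hy⟩
        · exact ⟨J, by omega, hy⟩
    rw [h1]
    exact (mm_union _ _).trans (add_le_add_left ih _)

variable [Finite A] [TopologicalSpace A] [DiscreteTopology A]

/-- sets of asymptotic frequency at least `η` have a point which is in infinitely many of them -/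
theorem borel {H : ℕ → Set (ℕ → A)} (hH : ∀ L, IsClosed (H L)) {η : ℝ} (hη : 0 < η) {L0 : ℕ}
    (h : ∀ L ≥ L0, η ≤ mm g d N (H L)) : ∃ y, ∀ K, ∃ L ≥ K, y ∈ H L := by
  set E : ℕ → ℕ → Set (ℕ → A) := fun K R => ⋃ L ∈ Finset.Icc K R, H L with hE
  have hEmono : ∀ K {R R' : ℕ}, R ≤ R' → E K R ⊆ E K R' := by
    intro K R R' hRR y hy
    rw [hE] at hy ⊢
    simp only [Set.mem_iUnion, Finset.mem_Icc, exists_prop] at hy ⊢
    obtain ⟨L, h1, h2⟩ := hy
    exact ⟨L, ⟨h1.1, by omega⟩, h2⟩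
  have hR : ∀ K, ∃ R, K ≤ R ∧ L0 ≤ R ∧ ∀ R', mm g d N (E K R') ≤
      mm g d N (E K R) + η / 2 ^ (K + 2) := by
    intro K
    have hb : BddAbove (Set.range fun R => mm g d N (E K R)) :=
      ⟨1, by rintro _ ⟨R, rfl⟩; exact (mm_mem g d N _).2⟩
    have hpos : 0 < η / 2 ^ (K + 2) := by positivity
    obtain ⟨R, hR⟩ := exists_lt_of_lt_ciSup (show (⨆ R, mm g d N (E K R)) - η / 2 ^ (K + 2) <
      ⨆ R, mm g d N (E K R) by linarith)
    refine ⟨max R (max K L0), (le_max_left _ _).trans (le_max_right _ _),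
      (le_max_right _ _).trans (le_max_right _ _), fun R' => ?_⟩
    have h1 := le_ciSup hb R'
    have h2 := mm_mono (g := g) (d := d) (N := N) (hEmono K (le_max_left R (max K L0)))
    linarith
  choose R hRK hRL hR using hR
  set V : ℕ → Set (ℕ → A) := fun K => E K (R K) with hV
  have hVη : ∀ K, η ≤ mm g d N (V K) := by
    intro K
    refine (h (R K) (hRL K)).trans (mm_mono ?_)
    intro y hy
    rw [hV, hE]
    simp only [Set.mem_iUnion, Finset.mem_Icc, exists_prop]
    exact ⟨R K, ⟨hRK K, le_rfl⟩, hy⟩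
  have hVV : ∀ J, ∀ K ≤ J, mm g d N (V J \ V K) ≤ η / 2 ^ (K + 2) := by
    intro J K hKJ
    have h1 : V J ⊆ E K (max (R J) (R K)) := by
      intro y hy
      rw [hV, hE] at hy
      rw [hE]
      simp only [Set.mem_iUnion, Finset.mem_Icc, exists_prop] at hy ⊢
      obtain ⟨L, h1, h2⟩ := hy
      exact ⟨L, ⟨by omega, h1.2.trans (le_max_left _ _)⟩, h2⟩
    have h2 : V J \ V K ⊆ E K (max (R J) (R K)) \ V K := Set.sdiff_subset_sdiff_left h1
    refine (mm_mono h2).trans ?_
    rw [mm_diff (hEmono K (le_max_right _ _))]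
    have := hR K (max (R J) (R K))
    linarith
  set C : ℕ → Set (ℕ → A) := fun J => ⋂ K ∈ range (J + 1), V K with hC
  have hCne : ∀ J, (C J).Nonempty := by
    intro J
    have h1 : V J ⊆ C J ∪ ⋃ K ∈ range (J + 1), (V J \ V K) := by
      intro y hy
      by_cases hy' : y ∈ C J
      · exact Or.inl hy'
      · right
        rw [hC] at hy'
        simp only [Set.mem_iInter, not_forall] at hy'
        obtain ⟨K, hK, hyK⟩ := hy'
        simp only [Set.mem_iUnion]
        exact ⟨K, hK, hy, hyK⟩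
    have h2 := (hVη J).trans ((mm_mono h1).trans (mm_union _ _))
    have h3 := mm_biUnion (g := g) (d := d) (N := N) (fun K => V J \ V K) (J + 1)
    have h4 : ∑ K ∈ range (J + 1), mm g d N (V J \ V K) ≤ ∑ K ∈ range (J + 1), η / 2 ^ (K + 2) :=
      sum_le_sum fun K hK => hVV J K (by rw [mem_range] at hK; omega)
    have h5 : ∀ J : ℕ, ∑ K ∈ range J, η / 2 ^ (K + 2) = η / 2 - η / 2 ^ (J + 1) := by
      intro J
      induction J with
      | zero => simp
      | succ J ih =>
        rw [sum_range_succ, ih]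
        have : (2 : ℝ) ^ (J + 2) = 2 * 2 ^ (J + 1) := by ring
        rw [this]
        field_simp
        ring
    have h6 : 0 < η / 2 ^ (J + 1 + 1) := by positivity
    rw [h5] at h4
    exact mm_nonempty (g := g) (d := d) (N := N) (by linarith)
  have hVcl : ∀ K, IsClosed (V K) := by
    intro K
    rw [hV, hE]
    exact Set.Finite.isClosed_biUnion (Finset.finite_toSet _) fun L _ => hH L
  have hCcl : ∀ J, IsClosed (C J) := fun J => isClosed_biInter fun K _ => hVcl K
  have hCanti : ∀ J, C (J + 1) ⊆ C J := by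
    intro J y hy
    rw [hC] at hy ⊢
    simp only [Set.mem_iInter] at hy ⊢
    intro K hK
    exact hy K (by rw [mem_range] at hK ⊢; omega)
  obtain ⟨y, hy⟩ := IsCompact.nonempty_iInter_of_sequence_nonempty_isCompact_isClosed C hCanti
    hCne (hCcl 0).isCompact hCcl
  refine ⟨y, fun K => ?_⟩
  rw [Set.mem_iInter] at hy
  have h1 := hy K
  rw [hC] at h1
  simp only [Set.mem_iInter] at h1
  have h2 := h1 K (by simp)
  rw [hV, hE] at h2
  simp only [Set.mem_iUnion, Finset.mem_Icc, exists_prop] at h2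
  obtain ⟨L, h3, h4⟩ := h2
  exact ⟨L, h3.1, h4⟩

end

theorem cn_occ [DecidableEq A] (d : ℕ → A) {L : ℕ} (H : Finset (Fin L → A)) (N : ℕ) :
    cn d {y | win y L 0 ∈ H} N = occ d H 0 N := by
  unfold cn occ
  congr 1
  ext n
  simp only [mem_filter, Set.mem_ofPred_eq]
  have : win (fun k => d (n + k)) L 0 = win d L (0 + n) := by
    funext i
    show d (n + (0 + i)) = d (0 + n + i)
    congr 1
    ring
  rw [this]

variable [DecidableEq A] [Inhabited A] [Fintype A]

/-- **Exponentially hot points.** -/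
theorem hot {l : Filter ι} {d : ι → ℕ → A} {N : ι → ℕ} (hN : Tendsto N l atTop)
    {M : ℕ} (hM : 0 < M) {W : Finset (Fin M → A)} (hW : W.Nonempty)
    (h1 : ∀ δ : ℝ, 0 < δ → ∀ᶠ i in l, (dens W - δ) * N i ≤ occ (d i) W 0 (N i))
    {M' : ℕ} (hM' : 0 < M') (S : Finset (Fin M' → A))
    (hS : ¬ Tendsto (fun i => (occ (d i) S 0 (N i) : ℝ) / N i) l (𝓝 (dens S))) :
    ∃ ε : ℝ, 0 < ε ∧ ∃ y : ℕ → A, win y M 0 ∈ W ∧ ∀ K : ℕ, ∃ L ≥ K,
      ∃ᶠ i in l, qq A ^ (-(1 - ε) * L) * N i < occ (d i) {win y L 0} 0 (N i) := by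
  classical
  rw [tendsto_iff_ultrafilter] at hS
  push Not at hS
  obtain ⟨g, hgl, hg⟩ := hS
  by_contra hcon
  apply hg
  refine core (hN.mono_left hgl) hM hW (fun δ hδ => (h1 δ hδ).filter_mono hgl) ?_ hM' S
  intro ε hε L0
  by_contra hno
  push Not at hno
  apply hcon
  set H : (L : ℕ) → Finset (Fin L → A) := fun L => univ.filter fun u =>
    win (ext u) M 0 ∈ W ∧ ¬ ∀ᶠ i in (g : Filter ι), (occ (d i) {u} 0 (N i) : ℝ) ≤
      qq A ^ (-(1 - ε) * L) * N i with hH
  let _ : TopologicalSpace A := ⊥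
  have : DiscreteTopology A := ⟨rfl⟩
  have hcl : ∀ L, IsClosed {y : ℕ → A | win y L 0 ∈ H L} := by
    intro L
    have hcont : Continuous fun y : ℕ → A => win y L 0 := by
      unfold win
      exact continuous_pi fun i => continuous_apply _
    exact (isClosed_discrete (H L : Set (Fin L → A))).preimage hcont
  have hm : ∀ L ≥ L0, ε ≤ mm g d N {y : ℕ → A | win y L 0 ∈ H L} := by
    intro L hL
    have h2 : ¬ ∀ᶠ i in (g : Filter ι), (occ (d i) (H L) 0 (N i) : ℝ) ≤ ε * N i := by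
      intro hev
      obtain ⟨u, hu, hw, hnot⟩ := hno L hL (H L) hev
      apply hu
      rw [hH]
      simp only [mem_filter, mem_univ, true_and]
      refine ⟨hw, fun hall => ?_⟩
      obtain ⟨i, h4, h5⟩ := (hnot.and hall).exists
      linarith
    rw [Filter.not_eventually, Ultrafilter.frequently_iff_eventually] at h2
    refine ge_of_tendsto (mm_tendsto g d N _) ?_
    filter_upwards [h2] with i hi
    rw [not_le] at hi
    unfold fr
    rw [cn_occ]
    have h3 : (0 : ℝ) < N i := by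
      rcases Nat.eq_zero_or_pos (N i) with h0 | h0
      · exfalso
        have h4 := occ_le (d i) (H L) 0 (N i)
        rw [h0] at hi h4
        have h5 : (occ (d i) (H L) 0 0 : ℝ) ≤ 0 := by exact_mod_cast h4
        simp only [Nat.cast_zero, mul_zero] at hi
        linarith
      · exact_mod_cast h0
    rw [le_div_iff₀ h3]
    exact hi.le
  obtain ⟨y, hy⟩ := borel hcl hε hm
  have hy' : ∀ K : ℕ, ∃ L ≥ K, win (ext (win y L 0)) M 0 ∈ W ∧
      ∃ᶠ i in l, qq A ^ (-(1 - ε) * L) * N i < occ (d i) {win y L 0} 0 (N i) := by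
    intro K
    obtain ⟨L, hL, hyL⟩ := hy K
    rw [Set.mem_ofPred_eq, hH] at hyL
    simp only [mem_filter, mem_univ, true_and] at hyL
    refine ⟨L, hL, hyL.1, ?_⟩
    have h2 := hyL.2
    rw [Filter.not_eventually] at h2
    simp only [not_le] at h2
    exact h2.filter_mono hgl
  refine ⟨ε, hε, y, ?_, fun K => ?_⟩
  · obtain ⟨L, hL, hyL, _⟩ := hy' M
    rw [win_ext_win y (by omega)] at hyL
    exact hyL
  · obtain ⟨L, hL, _, h3⟩ := hy' K
    exact ⟨L, hL, h3⟩

end Pool.Agent.H201.NC
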