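import Pool.Agent.H201.NC.Dig

/-!
# Multiplication by bounded factors preserves the equidistribution of words
-/

set_option autoImplicit false

namespace Pool.Agent.H201.NC

open Finset Filter Topology

variable {q : ℕ} [NeZero q] {ι : Type*}

theorem occ_le_of_le {A : Type*} [DecidableEq A] (d : ℕ → A) {M : ℕ} (S : Finset (Fin M → A))
    {m N N' : ℕ} : (occ d S m N : ℝ) ≤ occ d S m N' + ((N - N' : ℕ) : ℝ) := by
  rcases le_total N N' with h | h
  · obtain ⟨R, rfl⟩ : ∃ R, N' = N + R := ⟨N' - N, by omega⟩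
    rw [occ_add]
    push_cast
    have h1 : (0 : ℝ) ≤ occ d S (m + N) R := Nat.cast_nonneg _
    have h2 : (0 : ℝ) ≤ ((N - (N + R) : ℕ) : ℝ) := Nat.cast_nonneg _
    linarith
  · obtain ⟨R, rfl⟩ : ∃ R, N = N' + R := ⟨N - N', by omega⟩
    rw [occ_add, Nat.add_sub_cancel_left]
    have h1 : (occ d S (m + N') R : ℝ) ≤ R := by exact_mod_cast occ_le d S _ _
    push_cast
    linarith

theorem compare_mul {a c L M : ℕ} (hc : 0 < c) (w : Fin M → Fin q) (N : ℕ) :
    occ (dg q (c * a)) {w} L N ≤ occ (dg q a) (wd q (L + M) (good q c L M (code w))) 0 N +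
      occ (dg q a) (wd q (L + M) (amb q c L M)) 0 N ∧
    occ (dg q a) (wd q (L + M) (good q c L M (code w))) 0 N ≤ occ (dg q (c * a)) {w} L N +
      occ (dg q a) (wd q (L + M) (amb q c L M)) 0 N := by
  have hq : 0 < q := Nat.pos_of_ne_zero (NeZero.ne q)
  have key : ∀ n, a / q ^ n % q ^ (L + M) ∈ amb q c L M ∨
      (c * a / q ^ (L + n) % q ^ M = code w ↔
        a / q ^ n % q ^ (L + M) ∈ good q c L M (code w)) := by
    intro n
    have hlt : a / q ^ n % q ^ (L + M) < q ^ (L + M) := Nat.mod_lt _ (pow_pos hq _)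
    by_cases hb : a / q ^ n % q ^ (L + M) ∈ amb q c L M
    · exact Or.inl hb
    · right
      unfold amb at hb
      rw [mem_filter, mem_range, not_and, not_lt] at hb
      rw [mul_digits hc (hb hlt)]
      unfold good
      rw [mem_filter, mem_range]
      exact ⟨fun h => ⟨hlt, h⟩, fun h => h.2⟩
  rw [occ_single, occ_wd, occ_wd]
  simp only [zero_add]
  constructor
  · refine (card_le_card ?_).trans (card_union_le _ _)
    intro n hn
    rw [mem_filter] at hn
    rw [mem_union, mem_filter, mem_filter]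
    rcases key n with h | h
    · exact Or.inr ⟨hn.1, h⟩
    · exact Or.inl ⟨hn.1, h.mp hn.2⟩
  · refine (card_le_card ?_).trans (card_union_le _ _)
    intro n hn
    rw [mem_filter] at hn
    rw [mem_union, mem_filter, mem_filter]
    rcases key n with h | h
    · exact Or.inr ⟨hn.1, h⟩
    · exact Or.inl ⟨hn.1, h.mpr hn.2⟩

/-- Multiplication by bounded factors prime to the base. -/
theorem Equi.mul (hq2 : 2 ≤ q) [Inhabited (Fin q)] {l : Filter ι} {a c : ι → ℕ} {N N' : ι → ℕ} {C K : ℕ}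
    (hN : Tendsto N l atTop) (hc : ∀ i, 0 < c i ∧ c i ≤ C ∧ Nat.Coprime (c i) q)
    (hNN : ∀ i, N i ≤ N' i + K ∧ N' i ≤ N i + K) (h : Equi l (fun i => dg q (a i)) N) :
    Equi l (fun i => dg q (c i * a i)) N' := by
  intro M hM w
  have hq : 0 < q := by omega
  have hqr : (0 : ℝ) < q := by exact_mod_cast hq
  rw [qq_fin, Metric.tendsto_nhds]
  intro η hη
  -- choice of `L`
  obtain ⟨L, hL⟩ : ∃ L : ℕ, (C : ℝ) / (q : ℝ) ^ L ≤ η / 16 := by
    have h1 : Tendsto (fun L : ℕ => (C : ℝ) / (q : ℝ) ^ L) atTop (𝓝 0) :=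
      tendsto_const_nhds.div_atTop (tendsto_pow_atTop_atTop_of_one_lt (by exact_mod_cast hq2))
    exact (h1.eventually_le_const (by positivity : (0 : ℝ) < η / 16)).exists
  have hLM : 0 < L + M := by omega
  have hgood : ∀ c' : ℕ, Nat.Coprime c' q →
      Tendsto (fun i => (occ (dg q (a i)) (wd q (L + M) (good q c' L M (code w))) 0 (N i) : ℝ) / N i)
        l (𝓝 (((q : ℝ) ^ M)⁻¹)) := by
    intro c' hc'
    have h1 := h.set hLM (wd q (L + M) (good q c' L M (code w)))
    have h2 : dens (wd q (L + M) (good q c' L M (code w))) = ((q : ℝ) ^ M)⁻¹ := by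
      unfold dens
      rw [card_wd (T := good q c' L M (code w)) (L + M) (filter_subset _ _),
        card_good hc' (code_lt w), qq_fin, pow_add]
      push_cast
      field_simp
    rw [h2] at h1
    exact h1
  have hamb : ∀ c' : ℕ, c' ≤ C → Nat.Coprime c' q →
      ∀ᶠ i in l, (occ (dg q (a i)) (wd q (L + M) (amb q c' L M)) 0 (N i) : ℝ) / N i < η / 8 := by
    intro c' hcC hc'
    have h1 := h.set hLM (wd q (L + M) (amb q c' L M))
    refine h1.eventually (gt_mem_nhds ?_)
    have h2 : dens (wd q (L + M) (amb q c' L M)) ≤ C / (q : ℝ) ^ L := by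
      unfold dens
      rw [card_wd (T := amb q c' L M) (L + M) (filter_subset _ _), qq_fin, pow_add,
        div_le_div_iff₀ (by positivity)
        (by positivity)]
      have h3 : ((amb q c' L M).card : ℝ) ≤ c' * (q : ℝ) ^ M := by exact_mod_cast card_amb hc'
      have h4 : (c' : ℝ) ≤ C := by exact_mod_cast hcC
      calc ((amb q c' L M).card : ℝ) * (q : ℝ) ^ L ≤ c' * (q : ℝ) ^ M * (q : ℝ) ^ L := by gcongr
        _ ≤ C * (q : ℝ) ^ M * (q : ℝ) ^ L := by gcongr
        _ = _ := by ring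
    linarith
  have hev : ∀ᶠ i in l, ∀ c' ∈ range (C + 1), Nat.Coprime c' q →
      dist ((occ (dg q (a i)) (wd q (L + M) (good q c' L M (code w))) 0 (N i) : ℝ) / N i)
        (((q : ℝ) ^ M)⁻¹) < η / 16 ∧
      (occ (dg q (a i)) (wd q (L + M) (amb q c' L M)) 0 (N i) : ℝ) / N i < η / 8 := by
    rw [Filter.eventually_all_finset]
    intro c' hc'
    rw [mem_range] at hc'
    by_cases hco : Nat.Coprime c' q
    · have h1 := (Metric.tendsto_nhds.mp (hgood c' hco)) (η / 16) (by positivity)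
      filter_upwards [h1, hamb c' (by omega) hco] with i hi1 hi2 _
      exact ⟨hi1, hi2⟩
    · exact Eventually.of_forall fun i h => absurd h hco
  have hlarge : ∀ᶠ i in l, (2 * L + K : ℝ) * 16 / η + 2 * K + 1 ≤ (N i : ℝ) :=
    (tendsto_natCast_atTop_atTop.comp hN).eventually_ge_atTop _
  filter_upwards [hev, hlarge] with i hi1 hi2
  obtain ⟨hc0, hcC, hco⟩ := hc i
  obtain ⟨h1, h2⟩ := hi1 (c i) (mem_range.mpr (by omega)) hco
  obtain ⟨h3, h4⟩ := compare_mul (a := a i) (L := L) hc0 w (N i)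
  set G : ℝ := (occ (dg q (a i)) (wd q (L + M) (good q (c i) L M (code w))) 0 (N i) : ℝ) with hG
  set B : ℝ := (occ (dg q (a i)) (wd q (L + M) (amb q (c i) L M)) 0 (N i) : ℝ) with hB
  set X : ℝ := (occ (dg q (c i * a i)) {w} L (N i) : ℝ) with hX
  set Z : ℝ := (occ (dg q (c i * a i)) {w} 0 (N' i) : ℝ) with hZ
  have h3' : X ≤ G + B := by rw [hX, hG, hB]; exact_mod_cast h3
  have h4' : G ≤ X + B := by rw [hX, hG, hB]; exact_mod_cast h4
  have hpos1 : (0 : ℝ) ≤ (2 * L + K : ℝ) * 16 / η := by positivity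
  have hK0 : (0 : ℝ) ≤ K := Nat.cast_nonneg K
  have hNpos : (0 : ℝ) < N i := by linarith
  have h5 : (2 * L + K : ℝ) ≤ η / 16 * N i := by
    have : (2 * L + K : ℝ) * 16 / η ≤ N i := by linarith
    rw [div_le_iff₀ hη] at this
    linarith
  have hL0 : (0 : ℝ) ≤ L := Nat.cast_nonneg L
  -- from `X` to `Z`
  have hadd : (occ (dg q (c i * a i)) {w} 0 (L + N i) : ℝ) =
      occ (dg q (c i * a i)) {w} 0 L + X := by
    rw [hX]
    have := occ_add (dg q (c i * a i)) {w} 0 L (N i)
    rw [zero_add] at this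
    exact_mod_cast this
  have hoL : (occ (dg q (c i * a i)) {w} 0 L : ℝ) ≤ L := by exact_mod_cast occ_le _ _ _ _
  have hoL0 : (0 : ℝ) ≤ occ (dg q (c i * a i)) {w} 0 L := Nat.cast_nonneg _
  obtain ⟨hN1, hN2⟩ := hNN i
  have e1 : Z ≤ X + L + K := by
    have := occ_le_of_le (dg q (c i * a i)) {w} (m := 0) (N := N' i) (N' := L + N i)
    have e2 : ((N' i - (L + N i) : ℕ) : ℝ) ≤ K := by exact_mod_cast (by omega : N' i - (L + N i) ≤ K)
    linarith
  have e3 : X ≤ Z + L + K := by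
    have := occ_le_of_le (dg q (c i * a i)) {w} (m := 0) (N := L + N i) (N' := N' i)
    have e2 : ((L + N i - N' i : ℕ) : ℝ) ≤ L + K := by
      exact_mod_cast (by omega : L + N i - N' i ≤ L + K)
    linarith
  have h6 : |G - ((q : ℝ) ^ M)⁻¹ * N i| < η / 16 * N i := by
    rw [Real.dist_eq] at h1
    have e4 : G / N i - ((q : ℝ) ^ M)⁻¹ = (G - ((q : ℝ) ^ M)⁻¹ * N i) / N i := by field_simp
    rw [e4, abs_div, abs_of_pos hNpos, div_lt_iff₀ hNpos] at h1
    exact h1
  have h7 : B < η / 8 * N i := by rwa [div_lt_iff₀ hNpos] at h2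
  have hN1' : (N i : ℝ) ≤ N' i + K := by exact_mod_cast hN1
  have hN2' : (N' i : ℝ) ≤ N i + K := by exact_mod_cast hN2
  have hN'pos : (0 : ℝ) < N' i := by linarith
  have hhalf : (N i : ℝ) ≤ 2 * N' i := by linarith
  set p : ℝ := ((q : ℝ) ^ M)⁻¹ with hp
  have hp0 : 0 ≤ p := by positivity
  have hp1 : p ≤ 1 := inv_le_one_of_one_le₀ (one_le_pow₀ (by exact_mod_cast hq))
  have hpK : |p * N i - p * N' i| ≤ K := by
    rw [← mul_sub, abs_mul, abs_of_nonneg hp0]
    have : |(N i : ℝ) - N' i| ≤ K := by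
      rw [abs_le]
      constructor <;> linarith
    calc p * |(N i : ℝ) - N' i| ≤ 1 * K := by gcongr
      _ = K := one_mul _
  have h8 : |Z - p * N' i| < η * N' i := by
    rw [abs_lt] at h6 ⊢
    rw [abs_le] at hpK
    have h9 : η / 16 * N i ≤ η / 16 * (2 * N' i) := by gcongr
    have h10 : η / 8 * N i ≤ η / 8 * (2 * N' i) := by gcongr
    have h11 : 0 < η * N' i := by positivity
    constructor <;> linarith [h6.1, h6.2, hpK.1, hpK.2]
  rw [Real.dist_eq]
  have e5 : Z / N' i - p = (Z - p * N' i) / N' i := by field_simp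
  rw [e5, abs_div, abs_of_pos hN'pos, div_lt_iff₀ hN'pos]
  exact h8

end Pool.Agent.H201.NC
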