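import Mathlib

/-!
# Words with atypical frequencies are few
-/

set_option autoImplicit false

namespace Pool.Agent.H201.NC

open Finset Filter Topology

variable {A : Type*}

/-- the word of length `L` of the sequence `d` at the place `n` -/
def win (d : ℕ → A) (L n : ℕ) : Fin L → A := fun i => d (n + i)

section ext

variable [Inhabited A]

/-- a word as an infinite sequence -/
def ext {L : ℕ} (u : Fin L → A) : ℕ → A := fun n => if h : n < L then u ⟨n, h⟩ else default

theorem ext_append_add {M L : ℕ} (v : Fin M → A) (u : Fin L → A) (k : ℕ) :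
    ext (Fin.append v u) (M + k) = ext u k := by
  unfold ext
  by_cases h : k < L
  · rw [dif_pos (by omega : M + k < M + L), dif_pos h]
    exact Fin.append_right v u ⟨k, h⟩
  · rw [dif_neg (by omega), dif_neg h]

theorem ext_append_lt {M L : ℕ} (v : Fin M → A) (u : Fin L → A) (i : Fin M) :
    ext (Fin.append v u) i = v i := by
  unfold ext
  rw [dif_pos (by omega : (i : ℕ) < M + L)]
  exact Fin.append_left v u i

theorem ext_win (d : ℕ → A) {L n k : ℕ} (h : k < L) : ext (win d L n) k = d (n + k) := by
  unfold ext win
  rw [dif_pos h]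

theorem win_ext_win (d : ℕ → A) {L n M k : ℕ} (h : k + M ≤ L) :
    win (ext (win d L n)) M k = win d M (n + k) := by
  funext i
  show ext (win d L n) (k + i) = d (n + k + i)
  rw [ext_win d (by omega), add_assoc]

variable [Fintype A]

theorem blockprod {M : ℕ} (g : (Fin M → A) → ℝ) (n : ℕ) : ∀ L, n * M ≤ L →
    ∑ u : Fin L → A, ∏ j ∈ range n, g (win (ext u) M (j * M)) =
      (Fintype.card A : ℝ) ^ (L - n * M) * (∑ v, g v) ^ n := by
  induction n with
  | zero =>
    intro L _
    simp [Fintype.card_pi]
  | succ n ih =>
    intro L hL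
    obtain ⟨L', rfl⟩ : ∃ L', L = M + L' := ⟨L - M, by
      have : (n + 1) * M = n * M + M := by ring
      omega⟩
    have hL' : n * M ≤ L' := by
      have : (n + 1) * M = n * M + M := by ring
      omega
    rw [← (Fin.appendEquiv (α := A) M L').sum_comp, Fintype.sum_prod_type]
    have h1 : ∀ (v : Fin M → A) (u : Fin L' → A),
        ∏ j ∈ range (n + 1), g (win (ext (Fin.appendEquiv M L' (v, u))) M (j * M)) =
          g v * ∏ j ∈ range n, g (win (ext u) M (j * M)) := by
      intro v u
      rw [prod_range_succ']
      rw [mul_comm]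
      congr 1
      · congr 1
        funext i
        show ext (Fin.append v u) (0 * M + i) = v i
        rw [zero_mul, zero_add]
        exact ext_append_lt v u i
      · refine prod_congr rfl fun j _ => ?_
        congr 1
        funext i
        show ext (Fin.append v u) ((j + 1) * M + i) = ext u (j * M + i)
        rw [show (j + 1) * M + (i : ℕ) = M + (j * M + i) by ring, ext_append_add]
    simp only [h1, ← mul_sum]
    rw [ih L' hL', ← sum_mul, pow_succ]
    have h2 : M + L' - (n + 1) * M = L' - n * M := by
      have : (n + 1) * M = n * M + M := by ring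
      omega
    rw [h2]
    ring

theorem shiftsum (F : (ℕ → A) → ℝ) {r L : ℕ} (h : r ≤ L) :
    ∑ u : Fin L → A, F (fun k => ext u (r + k)) =
      (Fintype.card A : ℝ) ^ r * ∑ u : Fin (L - r) → A, F (ext u) := by
  obtain ⟨L', rfl⟩ : ∃ L', L = r + L' := ⟨L - r, by omega⟩
  rw [← (Fin.appendEquiv (α := A) r L').sum_comp, Fintype.sum_prod_type]
  have h1 : ∀ (v : Fin r → A) (u : Fin L' → A),
      F (fun k => ext (Fin.appendEquiv r L' (v, u)) (r + k)) = F (ext u) := by
    intro v u
    congr 1
    funext k
    exact ext_append_add v u k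
  simp only [h1, sum_const, card_univ, Fintype.card_pi, Finset.prod_const, Fintype.card_fin]
  rw [Nat.add_sub_cancel_left, nsmul_eq_mul]
  push_cast
  rfl

/-- block sums at the offset `r` -/
theorem blockprod' {M : ℕ} (g : (Fin M → A) → ℝ) {n r L : ℕ} (h : r + n * M ≤ L) :
    ∑ u : Fin L → A, ∏ j ∈ range n, g (win (ext u) M (r + j * M)) =
      (Fintype.card A : ℝ) ^ (L - n * M) * (∑ v, g v) ^ n := by
  have h1 := shiftsum (A := A) (fun d => ∏ j ∈ range n, g (win d M (j * M))) (r := r) (L := L)
    (by omega)
  have h2 : ∀ u : Fin L → A, ∏ j ∈ range n, g (win (fun k => ext u (r + k)) M (j * M)) =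
      ∏ j ∈ range n, g (win (ext u) M (r + j * M)) := by
    intro u
    refine prod_congr rfl fun j _ => ?_
    congr 1
    funext i
    show ext u (r + (j * M + i)) = ext u (r + j * M + i)
    rw [add_assoc]
  simp only [h2] at h1
  rw [h1, blockprod g n (L - r) (by omega), ← mul_assoc, ← pow_add]
  congr 2
  omega

end ext

end Pool.Agent.H201.NC
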